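import Pool.Agent.Helper15_SIQ.Stmts
import Pool.Agent.Helper18_SIU.WDG
import Pool.Agent.Helper15_SIU.W

/-!
# MP_021b97_an, Q1, modules KKP and PR2
-/

set_option autoImplicit false

open MeasureTheory Filter Topology

namespace Pool.Agent.SIQ.H85

open Pool.Agent.SIU

theorem pair_congr {k l : ℕ} {a a' : E6 → Alt 6 k} {b b' : E6 → Alt 6 l}
    (ha : ∀ z ∈ X1.U, a z = a' z) (hb : ∀ z ∈ X1.U, b z = b' z) :
    X1.pair a b = X1.pair a' b' := by
  unfold Toric.pair Toric.pull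
  simp only [ha _ (sigma1_mem_U _), hb _ (sigma1_mem_U _)]

theorem basic_congr {k : ℕ} {a a' : E6 → Alt 6 k} (h : ∀ z ∈ X1.U, a z = a' z)
    (ha : X1.BasicOn X1.U a) : X1.BasicOn X1.U a' := by
  refine ⟨fun z hz c hc v => ?_, fun z hz v i hv => ?_⟩
  · rw [← h z hz, ← h _ ((act1_mem_U hc z).mpr hz)]
    exact ha.1 z hz c hc v
  · rw [← h z hz]
    exact ha.2 z hz v i hv

/-- PR2 -/
theorem pr2 (hKpw : KpwStmt) (hKkp : KkpStmt) (hPpo : PpoStmt) (hTav : TavStmt)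
    (hRho : RhoStmt) (hQua : QuaStmt) : Pr2Stmt := by
  intro δ hδ w p q hpq T hT
  obtain ⟨hb, hc, hpos⟩ := hT
  obtain ⟨-, hpair, hrot, -, -⟩ := hKkp δ hδ p q hpq T hc
  constructor
  · apply hPpo w p q hpq _ (hrot hb)
    intro β hβ
    rw [hpair β]
    obtain ⟨⟨S, hS⟩, h2⟩ := hTav δ hδ q T hc
    rw [← hS β]
    have h3 := (h2 S hS).2.2.1 w ⟨hb, hc, hpos⟩
    exact h3.2.2 β (fun z hz => H15.fpos_of_spos (hβ z hz) _)
  · obtain ⟨hkb, hks, -, hkg⟩ := hKpw q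
    have hkc : ContinuousOn (X1.kpow q) X1.U := hks.continuousOn
    obtain ⟨-, -, hInt, hZ, -, -, hsup, -⟩ := hRho δ hδ
    have hB : ∀ z ∈ X1.U, (toF (X1.kpow q)).1 z = X1.kpow q z := fun z hz =>
      toF_apply hkc hkb hz
    have hAv : ∀ z ∈ X1.U, Av δ (toF (X1.kpow q)).1 z = X1.kpow q z := by
      intro z hz
      have h1 : ∀ g : E6, rho δ g • gs g (toF (X1.kpow q)).1 z = rho δ g • X1.kpow q z := by
        intro g
        by_cases hg : rho δ g = 0
        · rw [hg, zero_smul, zero_smul]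
        · have hgU := (hsup g hg).1
          have h2 : gs g (toF (X1.kpow q)).1 z = gs g (X1.kpow q) z := by
            unfold gs
            rw [hB _ ((hQua.2.1 g z).mpr ⟨hgU, hz⟩)]
          rw [h2, hkg g hgU z hz]
      unfold Av
      simp only [h1]
      rw [integral_smul_const, smul_smul]
      show ((Zc δ)⁻¹ * Zc δ) • _ = _
      rw [inv_mul_cancel₀ hZ.ne', one_smul]
    have hAc : ContinuousOn (Av δ (toF (X1.kpow q)).1) X1.U := hkc.congr hAv
    have hAb : X1.BasicOn X1.U (Av δ (toF (X1.kpow q)).1) :=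
      basic_congr (fun z hz => (hAv z hz).symm) hkb
    rw [pair_congr (a' := (KK δ p q T).1) (b' := (toF (X1.kpow q)).1) (fun _ _ => rfl)
      (fun z hz => (hB z hz).symm), hpair]
    congr 1
    apply form_ext
    intro z hz
    rw [toF_apply hAc hAb hz, hB z hz, hAv z hz]

/-! ### KKP -/

/-- the rotation as a continuous linear map on forms -/
noncomputable def rotL (k : ℕ) (u : ℂ) : Alt 6 k →L[ℝ] Alt 6 k :=
  ContinuousAlternatingMap.compContinuousLinearMapCLM (mulC 6 u)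

theorem rotL_apply {k : ℕ} (u : ℂ) (a : Alt 6 k) :
    rotL k u a = a.compContinuousLinearMap (mulC 6 u) := rfl

theorem rotF_eq {k : ℕ} (u : ℂ) (β : E6 → Alt 6 k) (z : E6) : rotF u β z = rotL k u (β z) := rfl

theorem rotF_val {k : ℕ} (u : ℂ) (β : E6 → Alt 6 k) (z : E6) (v : Fin k → E6) :
    rotF u β z v = β z (fun i => u • v i) := rfl

theorem act_smul (c : C3) (u : ℂ) (v : E6) : X1.act c (u • v) = u • X1.act c v := by
  rw [← actL1_apply, ← actL1_apply, map_smul]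

theorem rotF_mem {k : ℕ} (u : ℂ) (β : X1.Form k) : rotF u β.1 ∈ X1.Form k := by
  refine ⟨(rotL k u).continuous.comp_continuousOn β.2.1, ⟨fun z hz c hc v => ?_,
    fun z hz v i hv => ?_⟩, fun z hz => ?_⟩
  · rw [rotF_val, rotF_val]
    have h := β.2.2.1.1 z hz c hc (fun i => u • v i)
    simp only [act_smul] at h
    exact h
  · rw [rotF_val]
    refine β.2.2.1.2 z hz _ i ?_
    obtain ⟨a, ha⟩ := hv
    refine ⟨fun j => u * a j, fun m => ?_⟩
    show u * v i m = _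
    rw [ha m, ← mul_assoc, Finset.mul_sum]
    congr 1
    exact Finset.sum_congr rfl fun j _ => by ring
  · rw [rotF_eq, β.2.2.2 z hz, map_zero]

theorem rotF_smooth {k : ℕ} (u : ℂ) {β : E6 → Alt 6 k} (h : X1.Smooth β) :
    X1.Smooth (rotF u β) :=
  (rotL k u).contDiff.comp_contDiffOn h

theorem pair_sub (hPrf : PrfStmt) {k l : ℕ} (hkl : k + l = 6) (a a' : X1.Form k)
    (b : X1.Form l) : X1.pair (a - a').1 b.1 = X1.pair a.1 b.1 - X1.pair a'.1 b.1 := by
  have h1 := (hPrf k l hkl a.1 b.1 a.2.1 a.2.2.1 b.2.1 b.2.2.1).1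
  have h2 := (hPrf k l hkl a'.1 b.1 a'.2.1 a'.2.2.1 b.2.1 b.2.2.1).1
  unfold Toric.pair
  rw [← integral_sub h1 h2]
  congr 1
  funext x
  have h3 : Toric.pull X1.σ (a - a').1 x =
      Toric.pull X1.σ a.1 x + (-1 : ℝ) • Toric.pull X1.σ a'.1 x := by
    ext v
    show a.1 (X1.σ x) _ - a'.1 (X1.σ x) _ = a.1 (X1.σ x) _ + (-1 : ℝ) • a'.1 (X1.σ x) _
    rw [smul_eq_mul]
    ring_nf
  rw [h3, H18.wedge_add_left, H18.wedge_smul_left, ContinuousAlternatingMap.add_apply,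
    ContinuousAlternatingMap.smul_apply, smul_eq_mul]
  ring

theorem pair_add (hPrf : PrfStmt) {k l : ℕ} (hkl : k + l = 6) (a a' : X1.Form k)
    (b : X1.Form l) : X1.pair (a + a').1 b.1 = X1.pair a.1 b.1 + X1.pair a'.1 b.1 := by
  have h := pair_sub hPrf hkl (a + a') a' b
  have h2 : a + a' - a' = a := add_sub_cancel_right a a'
  rw [h2] at h
  linarith

theorem isCont_add {q : ℕ} {T S : X1.Current q} (hT : X1.IsCont T) (hS : X1.IsCont S) :
    X1.IsCont (T + S) := by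
  obtain ⟨Q, C, hQ, hQU, h⟩ := hT
  obtain ⟨Q', C', hQ', hQU', h'⟩ := hS
  refine ⟨Q ∪ Q', C + C', hQ.union hQ', Set.union_subset hQU hQU', fun β c hc => ?_⟩
  have h1 := h β c fun z hz => hc z (Or.inl hz)
  have h2 := h' β c fun z hz => hc z (Or.inr hz)
  rw [LinearMap.add_apply]
  calc |T β + S β| ≤ |T β| + |S β| := abs_add_le _ _
    _ ≤ C * c + C' * c := add_le_add h1 h2
    _ = _ := by ring

theorem av_rot (hAvf : AvfStmt) {δ : Fin 3 → ℝ} (hδ : Ad δ) {k : ℕ} (u : ℂ) (β : X1.Form k)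
    {z : E6} (hz : z ∈ X1.U) : Av δ (rotF u β.1) z = rotL k u (Av δ β.1 z) := by
  have h := (hAvf δ hδ k β.1 β.2.1 β.2.2.1).1 z hz
  unfold Av
  rw [map_smul, ← ContinuousLinearMap.integral_comp_comm _ h]
  congr 2
  funext g
  rw [map_smul]
  congr 1
  ext v
  show β.1 (qm g z) (fun i => u • qmL g (v i)) = β.1 (qm g z) (fun i => qmL g (u • v i))
  simp only [map_smul]

/-- KKP -/
theorem kkp (hExi : ExiStmt) (hNdg : NdgStmt) (hInv : InvStmt) (_hGsf : GsfStmt)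
    (hAvf : AvfStmt) (hPrf : PrfStmt) : KkpStmt := by
  intro δ hδ p q hpq T hT
  have hkl : 2 * p + 2 * q = 6 := by omega
  have key : ∀ T' : X1.Current q, X1.IsCont T' → X1.Smooth (KK δ p q T').1 ∧
      ∀ β : X1.Form (2 * q), X1.pair (KK δ p q T').1 β.1 = T' (toF (Av δ β.1)) := by
    intro T' hT'
    have h : p + q = 3 ∧ X1.IsCont T' ∧ ∃ K : X1.Form (2 * p), X1.Smooth K.1 ∧
      ∀ β : X1.Form (2 * q), X1.pair K.1 β.1 = T' (toF (Av δ β.1)) :=
      ⟨hpq, hT', hExi δ hδ p q hpq T' hT'⟩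
    have h2 : KK δ p q T' = Classical.choose h.2.2 := dif_pos h
    rw [h2]
    exact Classical.choose_spec h.2.2
  obtain ⟨hsm, hpair⟩ := key T hT
  have hndg : ∀ (a : X1.Form (2 * p)) (O : Set E6), IsOpen O → Sat O →
      (∀ β : X1.Form (2 * q), X1.Smooth β.1 → (∀ z, z ∉ O → β.1 z = 0) →
        X1.pair a.1 β.1 = 0) → ∀ z ∈ X1.U ∩ O, a.1 z = 0 := fun a O hO hS h =>
    hNdg.1 (2 * p) (2 * q) hkl a.1 a.2.1 a.2.2.1 O hO hS h
  have hsatuniv : Sat (Set.univ : Set E6) := fun _ _ _ _ => Set.mem_univ _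
  refine ⟨hsm, hpair, fun hbd => ?_, fun S hS => ?_, fun K O hO hOs hK => ?_⟩
  · intro z hz u hu v
    have hu0 : u ≠ 0 := by
      intro h
      rw [h, norm_zero] at hu
      exact zero_ne_one hu
    have hu' : ‖u⁻¹‖ = 1 := by rw [norm_inv, hu, inv_one]
    have h0 := hndg (⟨rotF u (KK δ p q T).1, rotF_mem u _⟩ - KK δ p q T) Set.univ isOpen_univ
      hsatuniv (fun β hβ _ => ?_) z ⟨hz, Set.mem_univ z⟩
    · have h1 : rotF u (KK δ p q T).1 z - (KK δ p q T).1 z = 0 := h0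
      have h2 := congrArg (fun a : Alt 6 (2 * p) => a v) (sub_eq_zero.mp h1)
      exact h2
    · rw [pair_sub hPrf hkl, sub_eq_zero, hpair β]
      show X1.pair (rotF u (KK δ p q T).1) β.1 = _
      have h3 : β.1 = rotF u (rotF u⁻¹ β.1) := by
        funext z
        ext v
        rw [rotF_val, rotF_val]
        simp only [smul_smul, inv_mul_cancel₀ hu0, one_smul]
      have h4 := (hInv (2 * p) (2 * q) hkl (KK δ p q T).1 (rotF u⁻¹ β.1) (KK δ p q T).2.1
        (KK δ p q T).2.2.1 (rotF_mem u⁻¹ β).1 (rotF_mem u⁻¹ β).2.1).2.1 u hu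
      rw [← h3] at h4
      rw [h4]
      have h5 := hpair ⟨rotF u⁻¹ β.1, rotF_mem u⁻¹ β⟩
      rw [h5]
      apply hbd u⁻¹ hu'
      intro z hz v
      have hA := hAvf δ hδ (2 * q) β.1 β.2.1 β.2.2.1
      have hA' := hAvf δ hδ (2 * q) (rotF u⁻¹ β.1) (rotF_mem u⁻¹ β).1 (rotF_mem u⁻¹ β).2.1
      rw [toF_apply hA.2.1 hA.2.2.1 hz, toF_apply hA'.2.1 hA'.2.2.1 hz, av_rot hAvf hδ _ β hz]
      rfl
  · obtain ⟨-, hpS⟩ := key S hS
    obtain ⟨-, hpTS⟩ := key (T + S) (isCont_add hT hS)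
    apply form_ext
    intro z hz
    have h0 := hndg (KK δ p q (T + S) - (KK δ p q T + KK δ p q S)) Set.univ isOpen_univ
      hsatuniv (fun β hβ _ => ?_) z ⟨hz, Set.mem_univ z⟩
    · exact sub_eq_zero.mp h0
    · rw [pair_sub hPrf hkl, pair_add hPrf hkl, hpair, hpS, hpTS, LinearMap.add_apply]
      ring
  · intro z hz
    have h0 := hndg (KK δ p q T - K) O hO hOs (fun β hβ hβO => ?_) z hz
    · exact sub_eq_zero.mp h0
    · rw [pair_sub hPrf hkl, hpair, hK β hβ hβO, sub_self]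

end Pool.Agent.SIQ.H85
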